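import Pool.Agent.Helper68.TG.Goals

/-!
# Project TG (MP_a41896_nt), packet NSL: Nullstellensatz
-/

set_option autoImplicit false

namespace Pool.Agent.Helper95.TG.NSL

theorem t_NSL : Pool.Agent.Helper68.TG.NSL := by
  intro K L κ _ _ _ _ _ _ S hS
  have hft : Algebra.FiniteType K (Algebra.adjoin K S) := by
    rw [← Subalgebra.fg_iff_finiteType, ← hS.coe_toFinset]
    exact ⟨hS.toFinset, rfl⟩
  obtain ⟨M, hM⟩ := Ideal.exists_maximal (Algebra.adjoin K S)
  letI : Field (Algebra.adjoin K S ⧸ M) := Ideal.Quotient.field M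
  have hft2 : Algebra.FiniteType K (Algebra.adjoin K S ⧸ M) :=
    hft.of_surjective (Ideal.Quotient.mkₐ K M) (Ideal.Quotient.mkₐ_surjective K M)
  have hfin : Module.Finite K (Algebra.adjoin K S ⧸ M) :=
    finite_of_finite_type_of_isJacobsonRing K (Algebra.adjoin K S ⧸ M)
  have halg : Algebra.IsAlgebraic K (Algebra.adjoin K S ⧸ M) := inferInstance
  exact ⟨(IsAlgClosed.lift : (Algebra.adjoin K S ⧸ M) →ₐ[K] κ).comp (Ideal.Quotient.mkₐ K M)⟩

end Pool.Agent.Helper95.TG.NSL
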